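import Mathlib
import Pool.Agent.TH504.VY.Defs
import Pool.Agent.Y91.TT.Lin

/-!
# Comparison isomorphisms between the cohomology of conjugate varieties
-/

namespace Pool.Agent.Y91.AH

open Matrix Module Pool.Agent.TH131.GHC Pool.Agent.Y91.TT

variable {n : ℕ} {d : Fin n → ℕ} {v : ℕ} (L : Type) [Field L] [CharZero L]

/-- A rational vector as a vector with entries in `L`. -/
def castW (x : Fin v → ℚ) : Fin v → L := fun b => (x b : L)

/-- Let `A`, `A'` be products of abelian varieties of dimensions `d i` and `Y`, `Y'` varieties with the
Betti number `v` (for instance `A'`, `Y'` are conjugates of `A`, `Y`). A comparison isomorphism with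
coefficients in the field `L` between the cohomology of `A × Y` and of `A' × Y'`, compatible with the
Künneth formula, is given by the isomorphism `M` from the homology of `A'` to the homology of `A`
with coefficients in `L` and the matrix `S` of the isomorphism between the cohomology of `Y` and of
`Y'`. -/
structure Comparison (d : Fin n → ℕ) (v : ℕ) where
  /-- the isomorphism from the homology of `A'` to the homology of `A` -/
  M : HV L d ≃ₗ[L] HV L d
  /-- the matrix of the isomorphism from the cohomology of `Y` to the cohomology of `Y'` -/
  S : Matrix (Fin v) (Fin v) L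

variable {L}

/-- The comparison isomorphism maps the rational class `F` on `A × Y` to the rational class `F'` on
`A' × Y'`. -/
def Comparison.Carries (c : Comparison L d v) (F F' : HAZ (HV ℚ d) v) : Prop :=
  ∀ k, ∃ Φ : HV L d [⋀^Fin k]→ₗ[L] (Fin v → L),
    (∀ w, Φ (fun l => castV L (w l)) = castW L (F k w)) ∧
    ∀ w, c.S *ᵥ Φ (fun l => c.M (castV L (w l))) = castW L (F' k w)

/-- The comparison isomorphism maps the rational class `f` on `A` to the rational class `f'` on
`A'`. -/
def Comparison.CarriesForm (c : Comparison L d v) {k : ℕ} (f f' : HV ℚ d [⋀^Fin k]→ₗ[ℚ] ℚ) : Prop :=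
  ∃ φ : HV L d [⋀^Fin k]→ₗ[L] L,
    (∀ w, φ (fun l => castV L (w l)) = (f w : L)) ∧
    ∀ w, φ (fun l => c.M (castV L (w l))) = (f' w : L)

/-- The comparison isomorphism maps the rational class `x` on `Y` to the rational class `x'` on
`Y'`. -/
def Comparison.CarriesClass (c : Comparison L d v) (x x' : Fin v → ℚ) : Prop :=
  c.S *ᵥ castW L x = castW L x'

end Pool.Agent.Y91.AH
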