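import Mathlib
import Pool.Agent.Y91.AH.Defs

/-!
# Conjugates of a product of abelian varieties and a variety
-/

namespace Pool.Agent.Y91.AH

open Matrix Module Pool.Agent.H204R3.CM Pool.Agent.W437.HP Pool.Agent.TH131.GHC
  Pool.Agent.TH504.VY Pool.Agent.Y91.TT

variable {P : Type} (L : P → Type) [∀ p, Field (L p)] [∀ p, CharZero (L p)] {n : ℕ}

/-- The conjugates of the product `A` of abelian varieties of dimensions `d i` and of the variety `Y`
under an automorphism of the complex numbers: the period matrices of the conjugate of `A`, the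
Hodge structure of the conjugate of `Y` and the isomorphisms between the cohomology groups, for each
theory in the set `P`; `L p` is the field of coefficients of the theory `p`. -/
structure Conjugate (d : Fin n → ℕ) (v : ℕ) where
  /-- the period matrices of the conjugate of `A` -/
  Z' : ∀ i, Matrix (Fin (d i)) (Fin (d i)) ℂ
  /-- the Hodge structure of the conjugate of `Y` -/
  V' : Coh v
  /-- the isomorphisms between the cohomology groups -/
  cmp : ∀ p, Comparison (L p) d v

variable {L} {d : Fin n → ℕ} {T : Type} [AddCommGroup T] [Module ℂ T] (per : HV ℚ d →+ T)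
  {v : ℕ}

/-- The conjugates of divisor classes on `A` are divisor classes. -/
def Conjugate.KeepsDivisors (σ : Conjugate L d v) : Prop :=
  ∀ B : HV ℚ d [⋀^Fin 2]→ₗ[ℚ] ℚ, IsHodge per B →
    ∃ B', IsHodge (perProd σ.Z') B' ∧ ∀ p, (σ.cmp p).CarriesForm B B'

/-- The conjugate of the class `x` on `Y` is a Hodge class, the same one for all theories. -/
def Conjugate.KeepsClass (σ : Conjugate L d v) (x : Fin v → ℚ) : Prop :=
  ∃ x', IsHodgeOn σ.V' x' ∧ ∀ p, (σ.cmp p).CarriesClass x x'

/-- The conjugate of the class `F` on `A × Y` is a Hodge class, the same one for all theories. -/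
def Conjugate.Keeps (σ : Conjugate L d v) (F : HAZ (HV ℚ d) v) : Prop :=
  ∃ F', IsHodgeOnProduct (perProd σ.Z') σ.V' F' ∧ ∀ p, (σ.cmp p).Carries F F'

end Pool.Agent.Y91.AH
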