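import Mathlib
import Pool.Agent.Y91.AH.Defs
import Pool.Agent.Y91.TT.Prod
import Pool.Agent.TH504.VY.Main

/-!
# Properties of comparison isomorphisms
-/

set_option linter.unusedSectionVars false

namespace Pool.Agent.Y91.AH

open Matrix Module Pool.Agent.TH131.GHC Pool.Agent.Y91.TT Pool.Agent.TH504.VY

variable {n : ℕ} {d : Fin n → ℕ} {v : ℕ} {L : Type} [Field L] [CharZero L]
  {c : Comparison L d v} {k : ℕ}

theorem castW_add (x y : Fin v → ℚ) : castW L (x + y) = castW L x + castW L y := by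
  funext b
  simp [castW]

theorem castW_smul (r : ℚ) (x : Fin v → ℚ) : castW L (r • x) = (r : L) • castW L x := by
  funext b
  simp [castW]

theorem castW_zero : castW L (0 : Fin v → ℚ) = 0 := by
  funext b
  simp [castW]

/-! ### Forms -/

theorem form_zero : c.CarriesForm (0 : HV ℚ d [⋀^Fin k]→ₗ[ℚ] ℚ) 0 :=
  ⟨0, fun w => by simp, fun w => by simp⟩

theorem form_add {f f' h h' : HV ℚ d [⋀^Fin k]→ₗ[ℚ] ℚ} (hf : c.CarriesForm f f')
    (hh : c.CarriesForm h h') : c.CarriesForm (f + h) (f' + h') := by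
  obtain ⟨φ, h1, h2⟩ := hf
  obtain ⟨ψ, h3, h4⟩ := hh
  refine ⟨φ + ψ, fun w => ?_, fun w => ?_⟩
  · rw [AlternatingMap.add_apply, AlternatingMap.add_apply, h1, h3, Rat.cast_add]
  · rw [AlternatingMap.add_apply, AlternatingMap.add_apply, h2, h4, Rat.cast_add]

theorem form_smul (r : ℚ) {f f' : HV ℚ d [⋀^Fin k]→ₗ[ℚ] ℚ} (hf : c.CarriesForm f f') :
    c.CarriesForm (r • f) (r • f') := by
  obtain ⟨φ, h1, h2⟩ := hf
  refine ⟨(r : L) • φ, fun w => ?_, fun w => ?_⟩
  · rw [AlternatingMap.smul_apply, AlternatingMap.smul_apply, h1, smul_eq_mul, smul_eq_mul,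
      Rat.cast_mul]
  · rw [AlternatingMap.smul_apply, AlternatingMap.smul_apply, h2, smul_eq_mul, smul_eq_mul,
      Rat.cast_mul]

/-- The product of forms of degree two. -/
noncomputable def wed {F : Type} [Field F] {M : Type} [AddCommGroup M] [Module F M] {r : ℕ}
    (e : Fin r × Fin 2 ≃ Fin k) (C : Fin r → M [⋀^Fin 2]→ₗ[F] F) : M [⋀^Fin k]→ₗ[F] F :=
  MultilinearMap.alternatization (prodM e C)

theorem wed_apply {F : Type} [Field F] {M : Type} [AddCommGroup M] [Module F M] {r : ℕ}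
    (e : Fin r × Fin 2 ≃ Fin k) (C : Fin r → M [⋀^Fin 2]→ₗ[F] F) (w : Fin k → M) :
    wed e C w = ∑ σ : Equiv.Perm (Fin k), ((Equiv.Perm.sign σ : ℤ) : F) *
      ∏ l, C l ![w (σ (e (l, 0))), w (σ (e (l, 1)))] := by
  unfold wed
  rw [MultilinearMap.alternatization_apply]
  refine Finset.sum_congr rfl fun σ _ => ?_
  rw [MultilinearMap.domDomCongr_apply, prodM_apply, Units.smul_def, zsmul_eq_mul]

theorem form_wed {r : ℕ} (e : Fin r × Fin 2 ≃ Fin k) {C C' : Fin r → HV ℚ d [⋀^Fin 2]→ₗ[ℚ] ℚ}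
    (h : ∀ l, c.CarriesForm (C l) (C' l)) : c.CarriesForm (wed e C) (wed e C') := by
  choose φ h1 h2 using h
  refine ⟨wed e φ, fun w => ?_, fun w => ?_⟩
  · rw [wed_apply, wed_apply]
    push_cast
    refine Finset.sum_congr rfl fun σ _ => ?_
    congr 1
    refine Finset.prod_congr rfl fun l _ => ?_
    rw [← h1 l]
    congr 1
    funext i
    fin_cases i <;> rfl
  · rw [wed_apply, wed_apply]
    push_cast
    refine Finset.sum_congr rfl fun σ _ => ?_
    congr 1
    refine Finset.prod_congr rfl fun l _ => ?_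
    rw [← h2 l]
    congr 1
    funext i
    fin_cases i <;> rfl

theorem eq_wed {r : ℕ} {e : Fin r × Fin 2 ≃ Fin k} {C : Fin r → HV ℚ d [⋀^Fin 2]→ₗ[ℚ] ℚ}
    {f : HV ℚ d [⋀^Fin k]→ₗ[ℚ] ℚ} (h : ∀ w, f w = ∑ σ : Equiv.Perm (Fin k),
      (Equiv.Perm.sign σ : ℤ) * ∏ l, C l ![w (σ (e (l, 0))), w (σ (e (l, 1)))]) : f = wed e C := by
  refine AlternatingMap.ext fun w => ?_
  rw [h, wed_apply]

/-! ### Classes on the product -/

theorem carries_zero : c.Carries 0 0 := fun k =>
  ⟨0, fun w => (castW_zero (L := L)).symm, fun w => by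
    rw [AlternatingMap.zero_apply, mulVec_zero]
    exact (castW_zero (L := L)).symm⟩

theorem carries_add {F F' G G' : HAZ (HV ℚ d) v} (hF : c.Carries F F') (hG : c.Carries G G') :
    c.Carries (F + G) (F' + G') := by
  intro k
  obtain ⟨φ, h1, h2⟩ := hF k
  obtain ⟨ψ, h3, h4⟩ := hG k
  refine ⟨φ + ψ, fun w => ?_, fun w => ?_⟩
  · rw [AlternatingMap.add_apply, Pi.add_apply, AlternatingMap.add_apply, h1, h3, castW_add]
  · rw [AlternatingMap.add_apply, Pi.add_apply, AlternatingMap.add_apply, mulVec_add, h2, h4,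
      castW_add]

theorem carries_smul (r : ℚ) {F F' : HAZ (HV ℚ d) v} (hF : c.Carries F F') :
    c.Carries (r • F) (r • F') := by
  intro k
  obtain ⟨φ, h1, h2⟩ := hF k
  refine ⟨(r : L) • φ, fun w => ?_, fun w => ?_⟩
  · rw [AlternatingMap.smul_apply, Pi.smul_apply, AlternatingMap.smul_apply, h1, castW_smul]
  · rw [AlternatingMap.smul_apply, Pi.smul_apply, AlternatingMap.smul_apply, mulVec_smul, h2,
      castW_smul]

theorem carries_cross {f f' : HV ℚ d [⋀^Fin k]→ₗ[ℚ] ℚ} {x x' : Fin v → ℚ}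
    (hf : c.CarriesForm f f') (hx : c.CarriesClass x x') :
    c.Carries (cross f x) (cross f' x') := by
  classical
  intro i
  by_cases hi : i = k
  · subst hi
    obtain ⟨φ, h1, h2⟩ := hf
    refine ⟨(LinearMap.toSpanSingleton L (Fin v → L) (castW L x)).compAlternatingMap φ,
      fun w => ?_, fun w => ?_⟩
    · unfold cross
      rw [Pi.single_eq_same]
      change φ _ • castW L x = castW L (f w • x)
      rw [h1, castW_smul]
    · unfold cross
      rw [Pi.single_eq_same]
      change c.S *ᵥ (φ _ • castW L x) = castW L (f' w • x')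
      rw [h2, castW_smul, mulVec_smul, show c.S *ᵥ castW L x = castW L x' from hx]
  · refine ⟨0, fun w => ?_, fun w => ?_⟩
    · unfold cross
      rw [Pi.single_eq_of_ne hi]
      exact (castW_zero (L := L)).symm
    · unfold cross
      rw [Pi.single_eq_of_ne hi, AlternatingMap.zero_apply, mulVec_zero]
      exact (castW_zero (L := L)).symm

/-! ### Determinants and integrals -/

theorem det_alt {κ : Type} [Fintype κ] [DecidableEq κ] (hκ : Fintype.card κ = Fintype.card (Ix d))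
    (ω : HV L d [⋀^κ]→ₗ[L] L) (M : HV L d →ₗ[L] HV L d) (y : κ → HV L d) :
    ω (fun l => M (y l)) = LinearMap.det M * ω y := by
  let E0 : Basis κ L (HV L d) := (bV L).reindex (Fintype.equivOfCardEq hκ.symm)
  have h1 := AlternatingMap.eq_smul_basis_det E0 ω
  have h2 : E0.det (fun l => M (y l)) = LinearMap.det M * E0.det y := E0.det_comp M y
  rw [h1, AlternatingMap.smul_apply, AlternatingMap.smul_apply, h2, smul_eq_mul, smul_eq_mul]
  ring

/-- The determinant of the comparison isomorphism is rational. -/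
theorem det_rat {N : ℕ} (hN : N = Fintype.card (Ix d)) {f f' : HV ℚ d [⋀^Fin N]→ₗ[ℚ] ℚ}
    (hf : c.CarriesForm f f') {e : Fin N → HV ℚ d} (he : f e ≠ 0) :
    LinearMap.det (c.M : HV L d →ₗ[L] HV L d) = ((f' e / f e : ℚ) : L) := by
  obtain ⟨φ, h1, h2⟩ := hf
  have h3 := det_alt (by rw [Fintype.card_fin, hN]) φ (c.M : HV L d →ₗ[L] HV L d)
    (fun l => castV L (e l))
  have h4 : φ (fun l => (c.M : HV L d →ₗ[L] HV L d) (castV L (e l))) = ((f' e : ℚ) : L) := h2 e
  rw [h4, h1] at h3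
  rw [Rat.cast_div, h3]
  have h5 : ((f e : ℚ) : L) ≠ 0 := Rat.cast_ne_zero.2 he
  field_simp

theorem det_ne : LinearMap.det (c.M : HV L d →ₗ[L] HV L d) ≠ 0 :=
  (LinearEquiv.isUnit_det' c.M).ne_zero

theorem carries_integral {j : ℕ} {F F' : HAZ (HV ℚ d) v} {β β' : HV ℚ d [⋀^Fin j]→ₗ[ℚ] ℚ}
    (hF : c.Carries F F') (hβ : c.CarriesForm β β') (e : Basis (Fin k ⊕ Fin j) ℚ (HV ℚ d)) :
    LinearMap.det (c.M : HV L d →ₗ[L] HV L d) • (c.S *ᵥ castW L (fibreIntegral e F β)) =
      castW L (fibreIntegral e F' β') := by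
  obtain ⟨Φ, h1, h2⟩ := hF k
  obtain ⟨φ, h3, h4⟩ := hβ
  have hcard : Fintype.card (Fin k ⊕ Fin j) = Fintype.card (Ix d) := by
    rw [← finrank_eq_card_basis e, ← finrank_eq_card_basis (bV ℚ (d := d))]
  -- the components
  let Φb : Fin v → HV L d [⋀^Fin k]→ₗ[L] L := fun b => (LinearMap.proj b).compAlternatingMap Φ
  let ω : Fin v → HV L d [⋀^Fin k ⊕ Fin j]→ₗ[L] L := fun b =>
    MultilinearMap.alternatization ((LinearMap.mul' L L).compMultilinearMap
      ((Φb b).toMultilinearMap.domCoprod φ.toMultilinearMap))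
  have hω : ∀ (b : Fin v) (y : Fin k ⊕ Fin j → HV L d), ω b y =
      ∑ σ : Equiv.Perm (Fin k ⊕ Fin j), (Equiv.Perm.sign σ : ℤ) •
        (Φ (fun l => y (σ (Sum.inl l))) b * φ (fun l => y (σ (Sum.inr l)))) := by
    intro b y
    change MultilinearMap.alternatization _ y = _
    rw [MultilinearMap.alternatization_apply]
    rfl
  have hint : ∀ b, castW L (fibreIntegral e F β) b = ω b (fun l => castV L (e l)) := by
    intro b
    rw [hω]
    unfold castW fibreIntegral
    rw [Finset.sum_apply, Rat.cast_sum]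
    refine Finset.sum_congr rfl fun σ _ => ?_
    have h5 := congrFun (h1 (fun l => e (σ (Sum.inl l)))) b
    have h6 := h3 (fun l => e (σ (Sum.inr l)))
    rw [h5, h6, Pi.smul_apply, Pi.smul_apply, smul_eq_mul, zsmul_eq_mul, zsmul_eq_mul]
    push_cast
    unfold castW
    ring
  have hint' : ∀ b, castW L (fibreIntegral e F' β') b =
      ∑ b', c.S b b' * ω b' (fun l => c.M (castV L (e l))) := by
    intro b
    have h7 : ∀ b', c.S b b' * ω b' (fun l => c.M (castV L (e l))) =
        ∑ σ : Equiv.Perm (Fin k ⊕ Fin j), ((Equiv.Perm.sign σ : ℤ) : L) *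
          (φ (fun l => c.M (castV L (e (σ (Sum.inr l))))) *
            (c.S b b' * Φ (fun l => c.M (castV L (e (σ (Sum.inl l))))) b')) := by
      intro b'
      rw [hω, Finset.mul_sum]
      refine Finset.sum_congr rfl fun σ _ => ?_
      rw [zsmul_eq_mul]
      ring
    rw [Finset.sum_congr rfl (fun b' _ => h7 b'), Finset.sum_comm]
    unfold castW fibreIntegral
    rw [Finset.sum_apply, Rat.cast_sum]
    refine Finset.sum_congr rfl fun σ _ => ?_
    rw [← Finset.mul_sum, ← Finset.mul_sum]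
    have h5 := congrFun (h2 (fun l => e (σ (Sum.inl l)))) b
    have h6 := h4 (fun l => e (σ (Sum.inr l)))
    have h8 : ∑ b', c.S b b' * Φ (fun l => c.M (castV L (e (σ (Sum.inl l))))) b' =
        castW L (F' k fun l => e (σ (Sum.inl l))) b := h5
    rw [h8, h6, Pi.smul_apply, Pi.smul_apply, smul_eq_mul, zsmul_eq_mul]
    unfold castW
    push_cast
    ring
  funext b
  rw [hint', Pi.smul_apply, smul_eq_mul]
  change _ * ∑ b', c.S b b' * castW L (fibreIntegral e F β) b' = _
  rw [Finset.mul_sum]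
  refine Finset.sum_congr rfl fun b' _ => ?_
  have h9 := det_alt hcard (ω b') (c.M : HV L d →ₗ[L] HV L d) (fun l => castV L (e l))
  rw [hint]
  have h10 : ω b' (fun l => c.M (castV L (e l))) =
      LinearMap.det (c.M : HV L d →ₗ[L] HV L d) * ω b' (fun l => castV L (e l)) := h9
  rw [h10]
  ring

end Pool.Agent.Y91.AH
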