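import Mathlib
import Pool.Agent.Y91.AH.Lin
import Pool.Agent.TH504.CB.Slice
import Pool.Agent.W437.HC.Hodge

/-!
# Products of divisor classes on a complex torus and Hodge classes on a variety are Hodge classes
-/

set_option linter.unusedSectionVars false

namespace Pool.Agent.Y91.AH

open Matrix Module Pool.Agent.H204R3.CM Pool.Agent.TH131.GHC Pool.Agent.Y91.TT
  Pool.Agent.TH504.VY Pool.Agent.W437.HC Pool.Agent.TH504.CB

noncomputable section

/-- The derivative of the invariance under the circle. -/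
theorem der_of_circle {T : Type} [AddCommGroup T] [Module ℂ T] {κ : Type} [Fintype κ]
    [DecidableEq κ] (Ψ : MultilinearMap ℝ (fun _ : κ => T) ℝ)
    (h : ∀ z : ℂ, ‖z‖ = 1 → ∀ u : κ → T, Ψ (fun l => z • u l) = Ψ u) (u : κ → T) :
    ∑ l, Ψ (Function.update u l (Complex.I • u l)) = 0 := by
  classical
  let s : (κ ⊕ κ → ℝ) →ₗ[ℝ] T :=
    { toFun := fun x => ∑ l, x (Sum.inl l) • u l + ∑ l, x (Sum.inr l) • (Complex.I • u l)
      map_add' := fun x y => by
        simp only [Pi.add_apply, add_smul, Finset.sum_add_distrib]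
        abel
      map_smul' := fun r x => by
        simp only [Pi.smul_apply, smul_eq_mul, mul_smul, RingHom.id_apply, smul_add,
          Finset.smul_sum] }
  have hs : ∀ x, s x = ∑ l, x (Sum.inl l) • u l + ∑ l, x (Sum.inr l) • (Complex.I • u l) :=
    fun x => rfl
  have hinl : ∀ l, s (Pi.single (Sum.inl l) 1) = u l := by
    intro l
    rw [hs, Finset.sum_eq_single l, Finset.sum_eq_zero]
    · rw [Pi.single_eq_same, one_smul, add_zero]
    · intro m _
      rw [Pi.single_eq_of_ne (by simp), zero_smul]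
    · intro m _ hm
      rw [Pi.single_eq_of_ne (fun h => hm (Sum.inl_injective h)), zero_smul]
    · intro h
      exact absurd (Finset.mem_univ _) h
  have hinr : ∀ l, s (Pi.single (Sum.inr l) 1) = Complex.I • u l := by
    intro l
    rw [hs, Finset.sum_eq_zero, Finset.sum_eq_single l]
    · rw [Pi.single_eq_same, one_smul, zero_add]
    · intro m _ hm
      rw [Pi.single_eq_of_ne (fun h => hm (Sum.inr_injective h)), zero_smul]
    · intro h
      exact absurd (Finset.mem_univ _) h
    · intro m _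
      rw [Pi.single_eq_of_ne (by simp), zero_smul]
  let J : Matrix (κ ⊕ κ) (κ ⊕ κ) ℝ := fromBlocks 0 (-1) 1 0
  have hJ : ∀ x, s (J *ᵥ x) = Complex.I • s x := by
    intro x
    have h1 : ∀ l, (J *ᵥ x) (Sum.inl l) = -x (Sum.inr l) := by
      intro l
      change (fromBlocks 0 (-1) 1 0 *ᵥ x) (Sum.inl l) = _
      rw [fromBlocks_mulVec]
      simp [Matrix.neg_mulVec]
    have h2 : ∀ l, (J *ᵥ x) (Sum.inr l) = x (Sum.inl l) := by
      intro l
      change (fromBlocks 0 (-1) 1 0 *ᵥ x) (Sum.inr l) = _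
      rw [fromBlocks_mulVec]
      simp
    rw [hs, hs, smul_add, Finset.smul_sum, Finset.smul_sum, add_comm]
    congr 1
    · refine Finset.sum_congr rfl fun l _ => ?_
      rw [h2, smul_comm]
    · refine Finset.sum_congr rfl fun l _ => ?_
      rw [h1, smul_comm Complex.I (x (Sum.inr l)), smul_smul, Complex.I_mul_I, neg_one_smul,
        smul_neg, neg_smul]
  obtain ⟨c, hc⟩ : ∃ c : (κ → κ ⊕ κ) → ℝ, c = fun I => Ψ (fun k => s (Pi.single (I k) 1)) :=
    ⟨_, rfl⟩
  have hev : ∀ x : κ → κ ⊕ κ → ℝ, evalF c x = Ψ (fun k => s (x k)) := by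
    intro x
    have h1 := multi_eq (Ψ.compLinearMap (fun _ : κ => s)) x
    rw [hc]
    exact h1.symm
  have hact : act J c = 0 := by
    apply act_of_rotate
    intro θ x
    rw [hev, hev]
    refine Eq.trans ?_ (h (Complex.cos θ + Complex.sin θ * Complex.I) (by
      rw [← Complex.exp_mul_I, Complex.norm_exp_ofReal_mul_I]) _)
    congr 1
    funext k
    rw [map_add, map_smul, map_smul, hJ, add_smul, mul_smul]
    congr 1
    · rw [← Complex.ofReal_cos]
      exact (RCLike.real_smul_eq_coe_smul (K := ℂ) (Real.cos θ) (s (x k)))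
    · rw [← Complex.ofReal_sin]
      exact (RCLike.real_smul_eq_coe_smul (K := ℂ) (Real.sin θ) (Complex.I • s (x k)))
  have h1 := congrFun hact (fun k => Sum.inl k)
  unfold act at h1
  rw [Pi.zero_apply] at h1
  rw [← h1]
  refine Finset.sum_congr rfl fun k _ => ?_
  rw [Finset.sum_eq_single (Sum.inr k)]
  · have h2 : J (Sum.inr k) (Sum.inl k) = 1 := by
      change (1 : Matrix κ κ ℝ) k k = 1
      rw [one_apply_eq]
    rw [h2, one_mul, hc]
    congr 1
    funext m
    by_cases hm : m = k
    · subst hm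
      rw [Function.update_self, Function.update_self, hinr]
    · rw [Function.update_of_ne hm, Function.update_of_ne hm, hinl]
  · intro b _ hb
    have h2 : J b (Sum.inl k) = 0 := by
      rcases b with b | b
      · rfl
      · change (1 : Matrix κ κ ℝ) b k = 0
        exact one_apply_ne fun h => hb (by rw [h])
    rw [h2, zero_mul]
  · intro h
    exact absurd (Finset.mem_univ _) h

variable {W T : Type} [AddCommGroup W] [Module ℚ W] [AddCommGroup T] [Module ℂ T]
  {per : W →+ T} {v : ℕ} {k : ℕ}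

/-- A product of divisor classes extends to an alternating form which is invariant under the
circle. -/
theorem exists_circle {r : ℕ} (e : Fin r × Fin 2 ≃ Fin k) {C : Fin r → W [⋀^Fin 2]→ₗ[ℚ] ℚ}
    (hC : ∀ l, IsHodge per (C l)) :
    ∃ Ψ : T [⋀^Fin k]→ₗ[ℝ] ℝ, (∀ w : Fin k → W, Ψ (fun l => per (w l)) =
      ((∑ σ : Equiv.Perm (Fin k), (Equiv.Perm.sign σ : ℤ) *
        ∏ l, C l ![w (σ (e (l, 0))), w (σ (e (l, 1)))] : ℚ) : ℝ)) ∧
      ∀ z : ℂ, ‖z‖ = 1 → ∀ u : Fin k → T, Ψ (fun l => z • u l) = Ψ u := by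
  choose ψ h1 h2 using hC
  let φ : Fin r → T [⋀^Fin 2]→ₗ[ℝ] ℝ := fun l =>
    (2 : ℝ)⁻¹ • MultilinearMap.alternatization (ψ l)
  have hφ : ∀ l (w : Fin 2 → W), φ l (fun i => per (w i)) = ((C l w : ℚ) : ℝ) := by
    intro l w
    change (2 : ℝ)⁻¹ • MultilinearMap.alternatization (ψ l) _ = _
    rw [MultilinearMap.alternatization_apply]
    have h3 : ∀ σ : Equiv.Perm (Fin 2), Equiv.Perm.sign σ •
        (ψ l).domDomCongr σ (fun i => per (w i)) = ((C l w : ℚ) : ℝ) := by
      intro σ
      have h4 : (ψ l).domDomCongr σ (fun i => per (w i)) = ((C l (fun i => w (σ i)) : ℚ) : ℝ) :=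
        h1 l (fun i => w (σ i))
      have h5 : C l (fun i => w (σ i)) = Equiv.Perm.sign σ • C l w := (C l).map_perm w σ
      rw [h4, h5]
      rcases Int.units_eq_one_or (Equiv.Perm.sign σ) with h | h <;> simp [h, Units.smul_def]
    rw [Finset.sum_congr rfl (fun σ _ => h3 σ), Finset.sum_const, Finset.card_univ,
      Fintype.card_perm, Fintype.card_fin, nsmul_eq_mul, smul_eq_mul]
    norm_num [Nat.factorial]
    ring
  have hφc : ∀ l (z : ℂ), ‖z‖ = 1 → ∀ u : Fin 2 → T, φ l (fun i => z • u i) = φ l u := by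
    intro l z hz u
    change (2 : ℝ)⁻¹ • MultilinearMap.alternatization (ψ l) _ =
      (2 : ℝ)⁻¹ • MultilinearMap.alternatization (ψ l) _
    rw [MultilinearMap.alternatization_apply, MultilinearMap.alternatization_apply]
    congr 1
    refine Finset.sum_congr rfl fun σ _ => ?_
    congr 1
    exact h2 l z hz fun i => u (σ i)
  refine ⟨wed e φ, fun w => ?_, fun z hz u => ?_⟩
  · rw [wed_apply]
    push_cast
    refine Finset.sum_congr rfl fun σ _ => ?_
    congr 1
    refine Finset.prod_congr rfl fun l _ => ?_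
    rw [← hφ l]
    congr 1
    funext i
    fin_cases i <;> rfl
  · rw [wed_apply, wed_apply]
    refine Finset.sum_congr rfl fun σ _ => ?_
    congr 1
    refine Finset.prod_congr rfl fun l _ => ?_
    refine Eq.trans ?_ (hφc l z hz _)
    congr 1
    funext i
    fin_cases i <;> rfl

theorem product_zero {V : Coh v} : IsHodgeOnProduct per V 0 := by
  refine ⟨0, fun k w => ?_, fun k u => ?_⟩
  · change (0 : Fin v → ℂ) = cv 0
    funext b
    simp [cv]
  · change (-Complex.I) • ∑ l : Fin k, (0 : Fin v → ℂ) + V.z *ᵥ (0 : Fin v → ℂ) =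
      ((0 : ℤ) : ℂ) • (0 : Fin v → ℂ)
    rw [Finset.sum_const_zero, smul_zero, mulVec_zero, smul_zero, add_zero]

theorem product_add {V : Coh v} {F G : HAZ W v} (hF : IsHodgeOnProduct per V F)
    (hG : IsHodgeOnProduct per V G) : IsHodgeOnProduct per V (F + G) := by
  obtain ⟨Φ, h1, h2⟩ := hF
  obtain ⟨Ψ, h3, h4⟩ := hG
  refine ⟨Φ + Ψ, fun k w => ?_, fun k u => ?_⟩
  · change Φ k _ + Ψ k _ = cv (F k w + G k w)
    rw [h1 k w, h3 k w]
    funext b
    simp [cv]
  · have h5 := h2 k u
    have h6 := h4 k u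
    change (-Complex.I) • ∑ l, (Φ k (Function.update u l (Complex.I • u l)) +
      Ψ k (Function.update u l (Complex.I • u l))) + V.z *ᵥ (Φ k u + Ψ k u) =
      ((0 : ℤ) : ℂ) • (Φ k u + Ψ k u)
    rw [Finset.sum_add_distrib, smul_add, mulVec_add, smul_add, ← h5, ← h6]
    abel

theorem product_smul {V : Coh v} (r : ℚ) {F : HAZ W v} (hF : IsHodgeOnProduct per V F) :
    IsHodgeOnProduct per V (r • F) := by
  obtain ⟨Φ, h1, h2⟩ := hF
  refine ⟨fun k => (r : ℂ) • Φ k, fun k w => ?_, fun k u => ?_⟩
  · change (r : ℂ) • Φ k _ = cv (r • F k w)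
    rw [h1 k w]
    funext b
    simp [cv]
  · have h5 := h2 k u
    change (-Complex.I) • ∑ l, (r : ℂ) • Φ k (Function.update u l (Complex.I • u l)) +
      V.z *ᵥ ((r : ℂ) • Φ k u) = ((0 : ℤ) : ℂ) • ((r : ℂ) • Φ k u)
    rw [← Finset.smul_sum, mulVec_smul, smul_comm _ (r : ℂ), ← smul_add, h5, smul_comm]

/-- **The product of a product of divisor classes and a Hodge class is a Hodge class.** -/
theorem cross_hodge {V : Coh v} {f : W [⋀^Fin k]→ₗ[ℚ] ℚ} (hf : f ∈ divisorSpan per k)
    {x : Fin v → ℚ} (hx : IsHodgeOn V x) : IsHodgeOnProduct per V (cross f x) := by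
  classical
  unfold divisorSpan at hf
  induction hf using Submodule.span_induction with
  | zero =>
    have h1 : cross (0 : W [⋀^Fin k]→ₗ[ℚ] ℚ) x = 0 := by
      unfold cross
      have h2 : (LinearMap.toSpanSingleton ℚ (Fin v → ℚ) x).compAlternatingMap
          (0 : W [⋀^Fin k]→ₗ[ℚ] ℚ) = 0 := by
        refine AlternatingMap.ext fun w => ?_
        simp
      rw [h2, Pi.single_zero]
    rw [h1]
    exact product_zero
  | add f g _ _ hf hg =>
    have h1 : cross (f + g) x = cross f x + cross g x := by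
      unfold cross
      rw [← Pi.single_add]
      congr 1
      refine AlternatingMap.ext fun w => ?_
      exact add_smul (f w) (g w) x
    rw [h1]
    exact product_add hf hg
  | smul r f _ hf =>
    have h1 : cross (r • f) x = r • cross f x := by
      unfold cross
      rw [← Pi.single_smul]
      congr 1
      refine AlternatingMap.ext fun w => ?_
      exact mul_smul r (f w) x
    rw [h1]
    exact product_smul r hf
  | mem f hf =>
    obtain ⟨r, e, C, hC, hf⟩ := hf
    obtain ⟨Ψ, h1, h2⟩ := exists_circle e hC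
    let Φ : T [⋀^Fin k]→ₗ[ℝ] (Fin v → ℂ) :=
      (LinearMap.toSpanSingleton ℝ (Fin v → ℂ) (cv x)).compAlternatingMap Ψ
    have hΦ : ∀ u, Φ u = (Ψ u : ℝ) • cv x := fun u => rfl
    refine ⟨Pi.single k Φ, fun i w => ?_, fun i u => ?_⟩
    · by_cases hi : i = k
      · subst hi
        unfold cross
        rw [Pi.single_eq_same, Pi.single_eq_same, hΦ, h1]
        change _ = cv (f w • x)
        rw [hf]
        funext b
        simp [cv]
      · unfold cross
        rw [Pi.single_eq_of_ne hi, Pi.single_eq_of_ne hi]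
        funext b
        simp [cv]
    · by_cases hi : i = k
      · subst hi
        rw [Pi.single_eq_same]
        have h3 : ∑ l, Φ (Function.update u l (Complex.I • u l)) = 0 := by
          have h4 := der_of_circle Ψ.toMultilinearMap h2 u
          have h5 : ∀ l, Φ (Function.update u l (Complex.I • u l)) =
              (Ψ.toMultilinearMap (Function.update u l (Complex.I • u l)) : ℝ) • cv x :=
            fun l => rfl
          rw [Finset.sum_congr rfl (fun l _ => h5 l), ← Finset.sum_smul, h4, zero_smul]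
        rw [h3, smul_zero, zero_add, hΦ, mulVec_smul, show V.z *ᵥ cv x = 0 from hx, smul_zero,
          Int.cast_zero, zero_smul]
      · rw [Pi.single_eq_of_ne hi]
        change (-Complex.I) • ∑ l : Fin i, (0 : Fin v → ℂ) + V.z *ᵥ (0 : Fin v → ℂ) =
          ((0 : ℤ) : ℂ) • (0 : Fin v → ℂ)
        rw [Finset.sum_const_zero, smul_zero, mulVec_zero, smul_zero, add_zero]

end

end Pool.Agent.Y91.AH
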