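import Mathlib
import Pool.Agent.Y91.AH.Cross
import Pool.Agent.Y91.PS.Point

/-!
# Absolute classes on the product of abelian varieties and a variety
-/

set_option linter.unusedSectionVars false

namespace Pool.Agent.Y91.AH

open Matrix Module Pool.Agent.H204R3.CM Pool.Agent.H194R3.CM Pool.Agent.W437.HC
  Pool.Agent.W437.HD Pool.Agent.W437.HP Pool.Agent.W437.HR Pool.Agent.W548.Odd
  Pool.Agent.TH125.Small Pool.Agent.TH131.GHC Pool.Agent.TH504.VL Pool.Agent.TH504.VY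
  Pool.Agent.Y91.TT Pool.Agent.Y91.PS

section span

variable {n : ℕ} {d : Fin n → ℕ} {v : ℕ} {P : Type} {L : P → Type} [∀ p, Field (L p)]
  [∀ p, CharZero (L p)] {c : ∀ p, Comparison (L p) d v} {T : Type} [AddCommGroup T] [Module ℂ T]
  {per : HV ℚ d →+ T} {k : ℕ}

/-- The span of the products of forms of degree two with a property. -/
def prodSpan (Q : HV ℚ d [⋀^Fin 2]→ₗ[ℚ] ℚ → Prop) (k : ℕ) :
    Submodule ℚ (HV ℚ d [⋀^Fin k]→ₗ[ℚ] ℚ) :=
  Submodule.span ℚ {f | ∃ (r : ℕ) (e : Fin r × Fin 2 ≃ Fin k) (C : Fin r → HV ℚ d [⋀^Fin 2]→ₗ[ℚ] ℚ),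
    (∀ l, Q (C l)) ∧
    ∀ w, f w = ∑ σ : Equiv.Perm (Fin k), (Equiv.Perm.sign σ : ℤ) *
      ∏ l, C l ![w (σ (e (l, 0))), w (σ (e (l, 1)))]}

theorem span_carries {Q : HV ℚ d [⋀^Fin 2]→ₗ[ℚ] ℚ → Prop}
    (h : ∀ B, IsHodge per B → ∃ B', Q B' ∧ ∀ p, (c p).CarriesForm B B')
    {f : HV ℚ d [⋀^Fin k]→ₗ[ℚ] ℚ} (hf : f ∈ divisorSpan per k) :
    ∃ f' ∈ prodSpan Q k, ∀ p, (c p).CarriesForm f f' := by
  unfold divisorSpan at hf
  induction hf using Submodule.span_induction with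
  | zero => exact ⟨0, Submodule.zero_mem _, fun p => form_zero⟩
  | add f g _ _ hf hg =>
    obtain ⟨f', h1, h2⟩ := hf
    obtain ⟨g', h3, h4⟩ := hg
    exact ⟨f' + g', Submodule.add_mem _ h1 h3, fun p => form_add (h2 p) (h4 p)⟩
  | smul r f _ hf =>
    obtain ⟨f', h1, h2⟩ := hf
    exact ⟨r • f', Submodule.smul_mem _ _ h1, fun p => form_smul r (h2 p)⟩
  | mem f hf =>
    obtain ⟨r, e, C, hC, hf⟩ := hf
    choose C' h1 h2 using fun l => h (C l) (hC l)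
    refine ⟨wed e C', Submodule.subset_span ⟨r, e, C', h1, fun w => ?_⟩, fun p => ?_⟩
    · rw [wed_apply]
    · rw [eq_wed hf]
      exact form_wed e fun l => h2 l p

end span

section top

variable {n : ℕ} {g : Fin n → ℕ} {Z : ∀ i, Matrix (Fin (g i)) (Fin (g i)) ℂ}

theorem exists_top (hZ : ∀ i, (Z i)ᵀ = Z i) (hpos : ∀ i, (imM (Z i)).PosDef)
    (hp : ∀ i, HasPcs (DZ (Z i))) :
    ∃ (f : HV ℚ g [⋀^Fin (Fintype.card (Ix g))]→ₗ[ℚ] ℚ)
      (e : Fin (Fintype.card (Ix g)) → HV ℚ g), f ∈ divisorSpan (perProd Z) _ ∧ f e ≠ 0 := by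
  classical
  let e : Basis (Fin (Fintype.card (Ix g))) ℚ (HV ℚ g) :=
    (bV ℚ).reindex (Fintype.equivFin (Ix g))
  refine ⟨e.det, e, ?_, ?_⟩
  · refine mem_span_point hZ hpos hp ?_
    have hpol : PolH (DZ (bigD ℂ Z)) := polOf (bigD_symm hZ) (imM_bigD_posDef _ hpos)
    refine act_top (EE g) ?_ (trace_zero_of_pol hpol) _
    rw [Fintype.card_fin, ← finrank_eq_card_basis (bV ℚ (d := g)),
      finrank_eq_card_basis (basisP g)]
  · rw [e.det_self]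
    exact one_ne_zero

end top

section main

variable {n : ℕ} {g : Fin n → ℕ} {Z : ∀ i, Matrix (Fin (g i)) (Fin (g i)) ℂ} {v : ℕ} {V : Coh v}
  {P : Type} {L : P → Type} [∀ p, Field (L p)] [∀ p, CharZero (L p)]
  {c : ∀ p, Comparison (L p) g v} {Q : HV ℚ g [⋀^Fin 2]→ₗ[ℚ] ℚ → Prop}

/-- The integrals of a class which is carried to a rational class are carried to rational
classes. -/
theorem integral_carries (h : IsFree Z V)
    (hdiv : ∀ B, IsHodge (perProd Z) B → ∃ B', Q B' ∧ ∀ p, (c p).CarriesForm B B')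
    {F F' : HAZ (HV ℚ g) v} (hF : ∀ p, (c p).Carries F F') {k j : ℕ}
    (e : Basis (Fin k ⊕ Fin j) ℚ (HV ℚ g)) {β : HV ℚ g [⋀^Fin j]→ₗ[ℚ] ℚ}
    (hβ : β ∈ divisorSpan (perProd Z) j) :
    ∃ x', ∀ p, (c p).CarriesClass (fibreIntegral e F β) x' := by
  obtain ⟨β', -, hβ'⟩ := span_carries hdiv hβ
  obtain ⟨f, e0, hf, hne⟩ := exists_top h.symm h.pos h.pcs
  obtain ⟨f', -, hf'⟩ := span_carries hdiv hf
  refine ⟨(f' e0 / f e0)⁻¹ • fibreIntegral e F' β', fun p => ?_⟩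
  have h1 := carries_integral (hF p) (hβ' p) e
  have h2 := det_rat (c := c p) rfl (hf' p) hne
  have h3 := det_ne (c := c p)
  rw [h2] at h1 h3
  change (c p).S *ᵥ castW (L p) (fibreIntegral e F β) = _
  rw [castW_smul, ← h1, smul_smul, Rat.cast_inv, inv_mul_cancel₀ h3, one_smul]

/-- Products of divisor classes and classes which are carried to Hodge classes are carried to Hodge
classes. -/
theorem cross_carries {Z' : ∀ i, Matrix (Fin (g i)) (Fin (g i)) ℂ} {V' : Coh v}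
    (hdiv : ∀ B : HV ℚ g [⋀^Fin 2]→ₗ[ℚ] ℚ, IsHodge (perProd Z) B → ∃ B', IsHodge (perProd Z') B' ∧
      ∀ p, (c p).CarriesForm B B') {k : ℕ} {f : HV ℚ g [⋀^Fin k]→ₗ[ℚ] ℚ}
    (hf : f ∈ divisorSpan (perProd Z) k) {x x' : Fin v → ℚ} (hx' : IsHodgeOn V' x')
    (hx : ∀ p, (c p).CarriesClass x x') :
    ∃ F', IsHodgeOnProduct (perProd Z') V' F' ∧ ∀ p, (c p).Carries (cross f x) F' := by
  obtain ⟨f', h1, h2⟩ := span_carries hdiv hf
  exact ⟨cross f' x', cross_hodge h1 hx', fun p => carries_cross (h2 p) (hx p)⟩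

end main

end Pool.Agent.Y91.AH
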